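import Pool.Agent.Lib.MP_e1f7e2_al.SU.Iface

set_option autoImplicit false

/-!
Module P12 (and the lemmas shared with P21).
-/

open MvPolynomial

namespace Pool.Agent.Lib.MP_e1f7e2_al.SU.H7

variable {K : Type*} [Field K] {w : Fin 3 → ℝ}

/-- degree of the second summand of a sum of controlled degree -/
lemma dg_of_add_le (F : Facts K w) {f e : MvPolynomial (Fin 3) K} (h : dg w (f + e) ≤ dg w f) :
    dg w e ≤ dg w f := by
  have h1 : e = (f + e) - f := by ring
  rw [h1]
  exact (F.d.sub_le _ _).trans (max_le h le_rfl)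

lemma dg_of_add_lt (F : Facts K w) {f e : MvPolynomial (Fin 3) K} (h : dg w (f + e) < dg w f) :
    dg w e = dg w f := by
  have h1 : e = (f + e) - f := by ring
  rw [h1]
  rw [F.d.sub_right _ _ h]

/-- the polynomial `- c X^n` evaluated -/
lemma aeval_mono (g : MvPolynomial (Fin 3) K) (c : K) (n : ℕ) :
    Polynomial.aeval g (- (Polynomial.C c * Polynomial.X ^ n) : Polynomial K) = - (C c * g ^ n) := by
  simp [MvPolynomial.algebraMap_eq]

/-- resonance: the leading monomial of `f` is a power of the one of `g` -/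
lemma reso (F : Facts K w) {f g : MvPolynomial (Fin 3) K} (hf : 0 < dg w f) {n : ℕ}
    (h : dg w f = n * dg w g) :
    ∃ R : Polynomial K, dg w (f + Polynomial.aeval g R) < dg w f := by
  obtain ⟨c, -, hc⟩ := F.d.lead f (g ^ n) hf (by rw [F.d.pow]; exact h)
  refine ⟨- (Polynomial.C c * Polynomial.X ^ n), ?_⟩
  rw [aeval_mono, ← sub_eq_add_neg]
  exact hc

/-- the numerical analysis of a degenerate polynomial in `f1, f3` of degree `< d1` -/
lemma numer (S : SuAll K w) {f1 f3 : MvPolynomial (Fin 3) K} {P : MvPolynomial (Fin 2) K} {d : ℝ}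
    (h13 : dg w f3 < dg w f1) (hb : 0 < br w f1 f3)
    (hd : dg w (ev P f1 f3) ≤ d) (hd1 : d < dg w f1)
    (hdeg : dg w (ev P f1 f3) < vdg (dg w f1) (dg w f3) P) :
    (∃ n : ℕ, dg w f1 = n * dg w f3) ∨
    (∃ (p : ℕ) (γ : ℝ), 0 < γ ∧ Odd p ∧ 3 ≤ p ∧ dg w f1 = p * γ ∧ dg w f3 = 2 * γ ∧
      (p - 2) * γ + br w f1 f3 ≤ d) := by
  obtain ⟨p, q, m, γ, h⟩ := S.su f1 f3 P hb hdeg
  obtain ⟨i, j, -, h2⟩ := S.low f1 f3 P p q m γ h
  have hγ := h.hγ
  have hf := h.df
  have hg := h.dg'
  have hc := h.cop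
  have hm : (1 : ℝ) ≤ m := by exact_mod_cast h.hm
  have hij : (0 : ℝ) ≤ (i * p + j * q) * γ := mul_nonneg (by positivity) hγ.le
  have hqp : q < p := by
    rw [hf, hg] at h13
    have := lt_of_mul_lt_mul_right h13 hγ.le
    exact_mod_cast this
  rcases Nat.lt_or_ge q 2 with hq | hq
  · left
    have hq1 : q = 1 := by have := h.hq; omega
    subst hq1
    refine ⟨p, ?_⟩
    rw [hf, hg]; push_cast; ring
  · right
    have hqp' : (q : ℝ) + 1 ≤ p := by exact_mod_cast hqp
    have hq' : (2 : ℝ) ≤ q := by exact_mod_cast hq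
    have hX : (p - q : ℝ) * γ ≤ (p * q - p - q) * γ := by
      apply mul_le_mul_of_nonneg_right _ hγ.le
      nlinarith
    have hX0 : 0 ≤ (p * q - p - q : ℝ) * γ + br w f1 f3 := by
      have : 0 ≤ (p - q : ℝ) * γ := mul_nonneg (by linarith) hγ.le
      linarith
    have h3 : (p * q - p - q : ℝ) * γ + br w f1 f3 ≤ d := by
      have : (1 : ℝ) * ((p * q - p - q : ℝ) * γ + br w f1 f3) ≤
          m * ((p * q - p - q : ℝ) * γ + br w f1 f3) := mul_le_mul_of_nonneg_right hm hX0
      linarith
    have h4 : (p * q - p - q : ℝ) * γ < p * γ := by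
      rw [← hf]; linarith
    have h5 : (p * q - p - q : ℝ) < p := lt_of_mul_lt_mul_right h4 hγ.le
    have hq2 : q = 2 := by
      by_contra hne
      have hq3 : (3 : ℝ) ≤ q := by
        have : 3 ≤ q := by omega
        exact_mod_cast this
      nlinarith
    subst hq2
    have hodd : Odd p := by
      rw [Nat.odd_iff]
      by_contra hne
      have h0 : p % 2 = 0 := by omega
      have h2p : 2 ∣ p := Nat.dvd_of_mod_eq_zero h0
      have := Nat.dvd_gcd h2p (dvd_refl 2)
      rw [hc] at this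
      omega
    refine ⟨p, γ, hγ, hodd, by omega, hf, by rw [hg]; push_cast; ring, ?_⟩
    have h6 : (p * (2 : ℕ) - p - (2 : ℕ) : ℝ) = p - 2 := by push_cast; ring
    rw [h6] at h3
    exact h3

/-- a nondegenerate polynomial in `f1, f3` of degree `< d1` is a polynomial in `f3` -/
lemma nondeg (F : Facts K w) {f1 f3 : MvPolynomial (Fin 3) K} {P : MvPolynomial (Fin 2) K}
    (h3 : 0 < dg w f3) (hd : vdg (dg w f1) (dg w f3) P < dg w f1) :
    ∃ R : Polynomial K, ev P f1 f3 = Polynomial.aeval f3 R := by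
  obtain ⟨R, hR⟩ := F.p.uni1 P (by
    intro m hm
    have h := F.p.ge (dg w f1) (dg w f3) P m hm
    by_contra hne
    have h1 : (1 : ℝ) ≤ m 0 := by
      have : 1 ≤ m 0 := by omega
      exact_mod_cast this
    have h2 : (0 : ℝ) ≤ (m 1 : ℝ) * dg w f3 := mul_nonneg (by positivity) h3.le
    have h4 : 0 ≤ dg w f1 := F.d.nn f1
    nlinarith)
  exact ⟨R, hR f1 f3⟩

/-- (SQ)(i) with `l = f3` -/
lemma sq1 (h1 : SqiStatement K w) {h f l : MvPolynomial (Fin 3) K} {Q : MvPolynomial (Fin 2) K}
    {R : Polynomial K} (hf : Fr h f l) (ih : IHyp K w (dg w h + dg w f + dg w l))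
    (ha : dg w (h + ev Q f l) < dg w h) (hb : dg w (f + Polynomial.aeval l R) ≤ dg w f)
    (hr : Red w (sp3 (h + ev Q f l) f l)) : Red w (sp3 h (f + Polynomial.aeval l R) l) := by
  have key := h1 l h f (aeval ![X 1, X 0] Q) R hf.rot'
    (by
      have e : dg w l + dg w h + dg w f = dg w h + dg w f + dg w l := by ring
      rw [e]; exact ih)
    (by rw [ev_swap]; exact ha) hb (by rw [ev_swap, sp3_rot]; exact hr)
  rw [sp3_rot] at key
  exact key

/-- (SQ)(ii) with `l = f3` -/
lemma sq2 (h2 : SqiiStatement K w) {h f l : MvPolynomial (Fin 3) K} {Q : MvPolynomial (Fin 2) K}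
    {R : Polynomial K} (hf : Fr h f l) (ih : IHyp K w (dg w h + dg w f + dg w l))
    (ha : dg w (h + ev Q f l) ≤ dg w h) (hb : dg w (f + Polynomial.aeval l R) < dg w f)
    (hr : Red w (sp3 h (f + Polynomial.aeval l R) l)) : Red w (sp3 (h + ev Q f l) f l) := by
  have key := h2 l h f (aeval ![X 1, X 0] Q) R hf.rot'
    (by
      have e : dg w l + dg w h + dg w f = dg w h + dg w f + dg w l := by ring
      rw [e]; exact ih)
    (by rw [ev_swap]; exact ha) hb (by rw [sp3_rot]; exact hr)
  rw [ev_swap, sp3_rot] at key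
  exact key

/-- change of the first entry inside a plane, by the induction hypothesis -/
lemma move1 {ν : ℝ} (ih : IHyp K w ν) {f g h e e' : MvPolynomial (Fin 3) K}
    {A B : MvPolynomial (Fin 2) K} (hf : Fr f g h) (hA : ev A g h = e) (hB : ev B g h = e')
    (hd : dg w (f + e) + dg w g + dg w h < ν) (hr : Red w (sp3 (f + e) g h)) :
    Red w (sp3 (f + e') g h) := by
  subst hA hB
  have := ih.go1 (hf.elem1 A) hd hr (B - A)
  rw [ev_sub] at this
  have e : f + ev A g h + (ev B g h - ev A g h) = f + ev B g h := by ring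
  rwa [e] at this

/-- change of the second entry inside a plane, by the induction hypothesis -/
lemma move2 {ν : ℝ} (ih : IHyp K w ν) {f g h e e' : MvPolynomial (Fin 3) K}
    {A B : MvPolynomial (Fin 2) K} (hf : Fr f g h) (hA : ev A f h = e) (hB : ev B f h = e')
    (hd : dg w f + dg w (g + e) + dg w h < ν) (hr : Red w (sp3 f (g + e) h)) :
    Red w (sp3 f (g + e') h) := by
  subst hA hB
  have := ih.go2 (hf.elem2 A) hd hr (B - A)
  rw [ev_sub] at this
  have e : g + ev A f h + (ev B f h - ev A f h) = g + ev B f h := by ring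
  rwa [e] at this

theorem p12 {K : Type*} [Field K] [CharZero K] {w : Fin 3 → ℝ} (F : Facts K w) (S : SuAll K w)
    (h1 : SqiStatement K w) (h2 : SqiiStatement K w) (h3 : D12Statement K w) :
    P12Statement K w := by
  intro f1 f2 f3 Q P hg ih hU hr hP
  have hfr := hg.fr
  have d3 : 0 < dg w f3 := F.b.dpos _ _ _ hfr.rot'
  have d23 := hg.d23
  have d12 := hg.d12
  have b13 : 0 < br w f1 f3 := F.b.bpos _ _ _ hfr.swap23
  have hPd : dg w (ev P f1 f3) ≤ dg w f2 := dg_of_add_le F hP
  -- the case of a polynomial in `f3`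
  by_cases hdeg : dg w (ev P f1 f3) < vdg (dg w f1) (dg w f3) P
  · rcases numer S (d23.trans d12) b13 hPd d12 hdeg with ⟨n, hn⟩ | ⟨p, γ, hγ, hodd, hp, e1, e3, hlow⟩
    · obtain ⟨R, hR⟩ := reso F (d3.trans (d23.trans d12)) hn
      have hy : Red w (sp3 (f1 + Polynomial.aeval f3 R) f2 f3) :=
        move1 ih hfr (A := Q) (B := Polynomial.aeval (X 1) R) rfl (ev_uni1 R f2 f3)
          (by linarith) hr
      have key := sq2 h2 (h := f2) (f := f1) (l := f3) (Q := P) (R := R) hfr.swap12
        (by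
          have e : dg w f2 + dg w f1 + dg w f3 = dg w f1 + dg w f2 + dg w f3 := by ring
          rw [e]; exact ih) hP hR (by rw [sp3_swap12]; exact hy)
      rw [sp3_swap12]
      exact key
    · by_cases hn : ∃ n : ℕ, dg w f2 = n * dg w f3
      · obtain ⟨n, hn⟩ := hn
        obtain ⟨R, hR⟩ := reso F (d3.trans d23) hn
        have hy : Red w (sp3 f1 (f2 + Polynomial.aeval f3 R) f3) := sq1 h1 hfr ih hU hR.le hr
        exact move2 ih hfr (A := Polynomial.aeval (X 1) R) (B := P) (ev_uni1 R f1 f3) rfl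
          (by linarith) hy
      · push Not at hn
        exfalso
        have hQd : dg w (ev Q f2 f3) = dg w f1 := dg_of_add_lt F hU
        obtain ⟨c, R, hcR⟩ := h3 f1 f2 f3 Q p γ hg hγ hodd hp e1 e3 hlow hn hQd.le
        have hR : Polynomial.aeval f3 R = ev Q f2 f3 - C c * f2 := by rw [hcR]; ring
        have hR' : dg w (Polynomial.aeval f3 R : MvPolynomial (Fin 3) K) = dg w f1 := by
          rw [hR, F.d.sub_left _ _ (by
            rw [hQd]
            exact lt_of_le_of_lt (F.d.Cmul_le c f2) d12), hQd]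
        have hR0 : R ≠ 0 := by
          rintro rfl
          rw [map_zero, F.d.zero] at hR'
          linarith
        rw [F.p.auni f3 R hR0, e3, e1] at hR'
        have : (R.natDegree * 2 : ℝ) = p := by
          have h5 : (R.natDegree * 2 : ℝ) * γ = p * γ := by linarith
          exact mul_right_cancel₀ hγ.ne' h5
        have h6 : R.natDegree * 2 = p := by exact_mod_cast this
        rw [← h6] at hodd
        rw [Nat.odd_iff] at hodd
        omega
  · have hv : vdg (dg w f1) (dg w f3) P < dg w f1 := by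
      have := not_lt.mp hdeg
      linarith
    obtain ⟨R, hR⟩ := nondeg F d3 hv
    rw [hR] at hP ⊢
    exact sq1 h1 hfr ih hU hP hr

end Pool.Agent.Lib.MP_e1f7e2_al.SU.H7
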