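import Pool.Agent.Lib.MP_e1f7e2_al.SU.H7.P12

set_option autoImplicit false

/-!
Module P21.
-/

open MvPolynomial

namespace Pool.Agent.Lib.MP_e1f7e2_al.SU.H7

theorem p21 {K : Type*} [Field K] [CharZero K] {w : Fin 3 → ℝ} (F : Facts K w) (S : SuAll K w)
    (h1 : SqiStatement K w) (h2 : SqiiStatement K w) (h3 : D12Statement K w) :
    P21Statement K w := by
  intro f1 f2 f3 P Q hg ih hU hr hQ
  have hfr := hg.fr
  have d3 : 0 < dg w f3 := F.b.dpos _ _ _ hfr.rot'
  have d23 := hg.d23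
  have d12 := hg.d12
  have b13 : 0 < br w f1 f3 := F.b.bpos _ _ _ hfr.swap23
  have hPd : dg w (ev P f1 f3) = dg w f2 := dg_of_add_lt F hU
  have ih' : IHyp K w (dg w f2 + dg w f1 + dg w f3) := by
    have e : dg w f2 + dg w f1 + dg w f3 = dg w f1 + dg w f2 + dg w f3 := by ring
    rw [e]; exact ih
  by_cases hn : ∃ n : ℕ, dg w f2 = n * dg w f3
  · obtain ⟨n, hn⟩ := hn
    obtain ⟨R, hR⟩ := reso F (d3.trans d23) hn
    have hy : Red w (sp3 f1 (f2 + Polynomial.aeval f3 R) f3) :=
      move2 ih hfr (A := P) (B := Polynomial.aeval (X 1) R) rfl (ev_uni1 R f1 f3)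
        (by linarith) hr
    exact sq2 h2 hfr ih hQ hR hy
  · push Not at hn
    have hdeg : dg w (ev P f1 f3) < vdg (dg w f1) (dg w f3) P := by
      by_contra hdeg
      have hv : vdg (dg w f1) (dg w f3) P ≤ dg w f2 := by
        have := not_lt.mp hdeg
        linarith
      have hv' := F.p.ev_le f1 f3 P
      have hP0 : P ≠ 0 := by
        rintro rfl
        rw [ev_zero, F.d.zero] at hPd
        linarith
      obtain ⟨m, -, hm⟩ := F.p.att (dg w f1) (dg w f3) P hP0
      have hm0 : m 0 = 0 := by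
        by_contra hne
        have h4 : (1 : ℝ) ≤ m 0 := by
          have : 1 ≤ m 0 := by omega
          exact_mod_cast this
        have h5 : (0 : ℝ) ≤ (m 1 : ℝ) * dg w f3 := mul_nonneg (by positivity) d3.le
        nlinarith
      apply hn (m 1)
      rw [hm0] at hm
      push_cast at hm
      linarith
    rcases numer S (d23.trans d12) b13 hPd.le d12 hdeg with ⟨n, hn'⟩ | ⟨p, γ, hγ, hodd, hp, e1, e3, hlow⟩
    · obtain ⟨R, hR⟩ := reso F (d3.trans (d23.trans d12)) hn'
      have hy : Red w (sp3 f2 (f1 + Polynomial.aeval f3 R) f3) :=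
        sq1 h1 hfr.swap12 ih' hU hR.le (by rw [sp3_swap12]; exact hr)
      rw [sp3_swap12] at hy
      exact move1 ih hfr (A := Polynomial.aeval (X 1) R) (B := Q) (ev_uni1 R f2 f3) rfl
        (by linarith) hy
    · obtain ⟨c, R, hcR⟩ := h3 f1 f2 f3 Q p γ hg hγ hodd hp e1 e3 hlow hn (dg_of_add_le F hQ)
      have hR : dg w (f1 + Polynomial.aeval f3 R) ≤ dg w f1 := by
        have e : f1 + Polynomial.aeval f3 R = (f1 + ev Q f2 f3) - C c * f2 := by rw [hcR]; ring
        rw [e]
        exact (F.d.sub_le _ _).trans (max_le hQ ((F.d.Cmul_le c f2).trans d12.le))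
      have hy : Red w (sp3 f2 (f1 + Polynomial.aeval f3 R) f3) :=
        sq1 h1 hfr.swap12 ih' hU hR (by rw [sp3_swap12]; exact hr)
      rw [sp3_swap12] at hy
      have e : f1 + ev Q f2 f3 = f1 + Polynomial.aeval f3 R + C c * f2 + C 0 * f3 + C 0 := by
        rw [hcR]; simp; ring
      rw [e, sp3_add1]
      exact hy

end Pool.Agent.Lib.MP_e1f7e2_al.SU.H7
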